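import Pool.Agent.Helper21.PS.Basic

/-!
# MP_8013d7_co, module RT: property `RR` is typical (the switching lemma is a hypothesis here)
-/

set_option autoImplicit false

namespace PS

open SimpleGraph Finset Pool.Agent.Helper37.PathSys
open Pool.Agent.Helper37.PathSys.PathSystem

open scoped Classical

noncomputable section

variable {n : ℕ} {G : SimpleGraph (Fin n)} {P : PathSystem G}

/-- the statement of the switching lemma `switch_star` -/
def SwitchStar (G : SimpleGraph (Fin n)) : Prop :=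
  ∀ (P : PathSystem G), P.Consistent → ∀ (z : Fin n) (S : Finset (Pr n)),
    (∀ p ∈ S, (dirG P).Adj z p.1.1 ∧ (dirG P).Adj z p.1.2 ∧
      ¬ (dirG P).Adj p.1.1 p.1.2 ∧ Free P p.1.1 p.1.2) →
    ∃ P' : PathSystem G, P'.Consistent ∧ dirG P' = dirG P ∧
      (∀ a b : Fin n, (∀ p ∈ S, s(a, b) ≠ s(p.1.1, p.1.2)) → P'.path a b = P.path a b) ∧
      (∀ p ∈ S, P'.nxt p.1.1 p.1.2 = z ∧ P'.nxt p.1.2 p.1.1 = z)

/-! ### ordered and unordered pairs -/

theorem RT_pairs (T : Finset (Fin n × Fin n)) (Q : Finset (Pr n))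
    (h1 : ∀ q ∈ T, q.1 ≠ q.2)
    (h2 : ∀ q ∈ T, ∀ h : q.1 < q.2, (⟨(q.1, q.2), h⟩ : Pr n) ∈ Q)
    (h3 : ∀ q ∈ T, ∀ h : q.2 < q.1, (⟨(q.2, q.1), h⟩ : Pr n) ∈ Q) :
    T.card ≤ 2 * Q.card := by
  have hsub : T ⊆ Q.image (fun p => p.1) ∪ Q.image (fun p => (p.1.2, p.1.1)) := by
    intro q hq
    rcases lt_or_gt_of_ne (h1 q hq) with h | h
    · exact mem_union_left _ (mem_image.mpr ⟨_, h2 q hq h, rfl⟩)
    · exact mem_union_right _ (mem_image.mpr ⟨_, h3 q hq h, rfl⟩)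
  calc T.card ≤ _ := card_le_card hsub
    _ ≤ (Q.image (fun p => p.1)).card + (Q.image (fun p => (p.1.2, p.1.1))).card :=
        card_union_le _ _
    _ ≤ Q.card + Q.card := add_le_add card_image_le card_image_le
    _ = 2 * Q.card := by ring

theorem RT_sum_dg (F : SimpleGraph (Fin n)) : ∑ x, dg F x ≤ 2 * nE F := by
  have h1 : ∑ x, dg F x =
      ((univ : Finset (Fin n × Fin n)).filter fun q => F.Adj q.1 q.2).card := by
    rw [card_filter, Fintype.sum_prod_type]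
    refine sum_congr rfl fun x _ => ?_
    rw [dg, NF, card_filter]
  rw [h1]
  refine RT_pairs _ _ ?_ ?_ ?_
  · intro q hq
    exact (mem_filter.mp hq).2.ne
  · intro q hq h
    exact mem_filter.mpr ⟨mem_univ _, (mem_filter.mp hq).2⟩
  · intro q hq h
    exact mem_filter.mpr ⟨mem_univ _, (mem_filter.mp hq).2.symm⟩

/-! ### the switching injection -/

/-- the pairs of `A` joined through `z` -/
def RTs (z : Fin n) (A : Finset (Fin n)) (P : PathSystem G) : Finset (Pr n) :=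
  univ.filter fun p => p.1.1 ∈ A ∧ p.1.2 ∈ A ∧ P.nxt p.1.1 p.1.2 = z ∧ P.nxt p.1.2 p.1.1 = z

theorem RT_ne {p q : Pr n} (h : p ≠ q) : s(p.1.1, p.1.2) ≠ s(q.1.1, q.1.2) := by
  intro he
  rw [Sym2.eq_iff] at he
  rcases he with ⟨h1, h2⟩ | ⟨h1, h2⟩
  · exact h (Subtype.ext (Prod.ext h1 h2))
  · have hp := p.2
    have hq := q.2
    rw [h1, h2] at hp
    exact lt_asymm hp hq

theorem RT_encode (hsw : SwitchStar G) (z : Fin n) (A : Finset (Fin n)) (D : ℝ) (hD : 0 < D)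
    (B : Finset (PathSystem G)) (M : PathSystem G → Finset (Pr n))
    (hB : ∀ P ∈ B, P.Consistent ∧ (∀ a ∈ A, (dirG P).Adj z a) ∧
      ∀ a ∈ A, ∀ b ∈ A, a ≠ b → ¬ (P.nxt a b = z ∧ P.nxt b a = z))
    (hM : ∀ P ∈ B, ∀ p ∈ M P, p.1.1 ∈ A ∧ p.1.2 ∈ A ∧ ¬ (dirG P).Adj p.1.1 p.1.2 ∧
      Free P p.1.1 p.1.2 ∧ (dg (dirG P) p.1.1 : ℝ) ≤ D) :
    ∑ P ∈ B, (1 + D⁻¹) ^ (M P).card ≤ ((Al G).card : ℝ) := by
  -- expand into a sum over subsets
  have hexp : ∀ P : PathSystem G, (1 + D⁻¹) ^ (M P).card =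
      ∑ S ∈ (M P).powerset, D⁻¹ ^ S.card := by
    intro P
    have h := Finset.sum_pow_mul_eq_add_pow D⁻¹ (1 : ℝ) (M P)
    simp only [one_pow, mul_one] at h
    rw [h, add_comm]
  simp_rw [hexp]
  rw [sum_sigma' B (fun P => (M P).powerset) (fun _ S => D⁻¹ ^ S.card)]
  set X := B.sigma (fun P => (M P).powerset) with hX
  have memX : ∀ s : (Σ _ : PathSystem G, Finset (Pr n)), s ∈ X ↔ s.1 ∈ B ∧ s.2 ⊆ M s.1 := by
    intro s
    rw [hX, mem_sigma, mem_powerset]
  -- the switched system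
  have hch : ∀ s : (Σ _ : PathSystem G, Finset (Pr n)), ∃ P' : PathSystem G, s ∈ X →
      (P'.Consistent ∧ dirG P' = dirG s.1 ∧
      (∀ a b : Fin n, (∀ p ∈ s.2, s(a, b) ≠ s(p.1.1, p.1.2)) → P'.path a b = s.1.path a b) ∧
      (∀ p ∈ s.2, P'.nxt p.1.1 p.1.2 = z ∧ P'.nxt p.1.2 p.1.1 = z)) := by
    intro s
    by_cases hs : s ∈ X
    · rw [memX] at hs
      obtain ⟨P', h⟩ := hsw s.1 (hB _ hs.1).1 z s.2 (by
        intro p hp
        obtain ⟨h1, h2, h3, h4, _⟩ := hM _ hs.1 p (hs.2 hp)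
        exact ⟨(hB _ hs.1).2.1 _ h1, (hB _ hs.1).2.1 _ h2, h3, h4⟩)
      exact ⟨P', fun _ => h⟩
    · exact ⟨s.1, fun h => absurd h hs⟩
  choose sw hswp using hch
  -- the data kept
  set g : (Σ _ : PathSystem G, Finset (Pr n)) → Pr n → Fin n :=
    fun s p => if p ∈ s.2 then s.1.nxt p.1.1 p.1.2 else z with hg
  have hnot : ∀ s ∈ X, ∀ p : Pr n, p ∉ s.2 → (sw s).path p.1.1 p.1.2 = s.1.path p.1.1 p.1.2 ∧
      (sw s).path p.1.2 p.1.1 = s.1.path p.1.2 p.1.1 := by
    intro s hs p hp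
    obtain ⟨_, _, h3, _⟩ := hswp s hs
    refine ⟨h3 _ _ fun q hq => RT_ne ?_, h3 _ _ fun q hq => ?_⟩
    · rintro rfl
      exact hp hq
    · rw [Sym2.eq_swap]
      refine RT_ne ?_
      rintro rfl
      exact hp hq
  have hS : ∀ s ∈ X, RTs z A (sw s) = s.2 := by
    intro s hs
    ext p
    simp only [RTs, mem_filter, mem_univ, true_and]
    constructor
    · rintro ⟨h1, h2, h3, h4⟩
      by_contra hp
      obtain ⟨e1, e2⟩ := hnot s hs p hp
      have hs' := (memX s).mp hs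
      refine (hB _ hs'.1).2.2 _ h1 _ h2 p.2.ne ⟨?_, ?_⟩
      · unfold nxt at h3 ⊢
        rw [← e1]
        exact h3
      · unfold nxt at h4 ⊢
        rw [← e2]
        exact h4
    · intro hp
      have hs' := (memX s).mp hs
      obtain ⟨h1, h2, _⟩ := hM _ hs'.1 p (hs'.2 hp)
      exact ⟨h1, h2, (hswp s hs).2.2.2 p hp⟩
  -- the target
  set Al' := (Al G).filter fun Q => ∀ p ∈ RTs z A Q, (dg (dirG Q) p.1.1 : ℝ) ≤ D with hAl'
  set Op : PathSystem G → Finset (Pr n → Fin n) := fun Q =>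
    Fintype.piFinset fun p => if p ∈ RTs z A Q then NF (dirG Q) p.1.1 else {z} with hOp
  set Y := Al'.sigma Op with hY
  have hmaps : ∀ s ∈ X, (⟨sw s, g s⟩ : Σ _ : PathSystem G, Pr n → Fin n) ∈ Y := by
    intro s hs
    have hs' := (memX s).mp hs
    rw [hY, mem_sigma]
    refine ⟨?_, ?_⟩
    · simp only [hAl', mem_filter, Al, mem_univ, true_and]
      refine ⟨(hswp s hs).1, ?_⟩
      intro p hp
      rw [hS s hs] at hp
      rw [(hswp s hs).2.1]
      exact (hM _ hs'.1 p (hs'.2 hp)).2.2.2.2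
    · simp only [hOp, Fintype.mem_piFinset]
      intro p
      rw [hS s hs]
      by_cases hp : p ∈ s.2
      · rw [if_pos hp]
        simp only [hg, if_pos hp, NF, mem_filter, mem_univ, true_and]
        rw [(hswp s hs).2.1]
        exact adj_nxt (hB _ hs'.1).1 p.2.ne
      · rw [if_neg hp]
        simp only [hg, if_neg hp, mem_singleton]
  have hinj : ∀ s ∈ X, ∀ t ∈ X, (⟨sw s, g s⟩ : Σ _ : PathSystem G, Pr n → Fin n) = ⟨sw t, g t⟩ →
      s = t := by
    intro s hs t ht h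
    have hs' := (memX s).mp hs
    have ht' := (memX t).mp ht
    have h1 : sw s = sw t := congrArg Sigma.fst h
    have h2 : g s = g t := by
      have := h
      simp only [Sigma.mk.injEq, heq_eq_eq] at this
      exact this.2
    have h3 : s.2 = t.2 := by rw [← hS s hs, ← hS t ht, h1]
    have h4 : s.1 = t.1 := by
      refine eq_of_nxt_any (hB _ hs'.1).1 (hB _ ht'.1).1 fun u v huv => ?_
      by_cases hp : (⟨(u, v), huv⟩ : Pr n) ∈ s.2
      · right; left
        have h5 := congrFun h2 ⟨(u, v), huv⟩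
        simp only [hg] at h5
        rw [if_pos hp, if_pos (h3 ▸ hp)] at h5
        exact h5
      · left
        have e1 := (hnot s hs _ hp).1
        have e2 := (hnot t ht _ (h3 ▸ hp)).1
        simp only at e1 e2
        rw [← e1, ← e2, h1]
    obtain ⟨s1, s2⟩ := s
    obtain ⟨t1, t2⟩ := t
    simp only at h3 h4
    rw [h3, h4]
  calc ∑ s ∈ X, D⁻¹ ^ s.2.card
      = ∑ s ∈ X, D⁻¹ ^ (RTs z A (sw s)).card := sum_congr rfl fun s hs => by rw [hS s hs]
    _ = ∑ t ∈ X.image (fun s => (⟨sw s, g s⟩ : Σ _ : PathSystem G, Pr n → Fin n)),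
          D⁻¹ ^ (RTs z A t.1).card := by
        rw [sum_image]
        intro s hs t ht h
        exact hinj s hs t ht h
    _ ≤ ∑ t ∈ Y, D⁻¹ ^ (RTs z A t.1).card := by
        refine sum_le_sum_of_subset_of_nonneg ?_ fun t _ _ => by positivity
        intro t ht
        obtain ⟨s, hs, rfl⟩ := mem_image.mp ht
        exact hmaps s hs
    _ = ∑ Q ∈ Al', ∑ _c ∈ Op Q, D⁻¹ ^ (RTs z A Q).card := sum_sigma _ _ _
    _ ≤ ∑ Q ∈ Al', (1 : ℝ) := by
        refine sum_le_sum fun Q hQ => ?_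
        rw [sum_const, nsmul_eq_mul]
        have hc : ((Op Q).card : ℝ) ≤ D ^ (RTs z A Q).card := by
          simp only [hOp]
          rw [Fintype.card_piFinset]
          push_cast
          calc ∏ p : Pr n, (((if p ∈ RTs z A Q then NF (dirG Q) p.1.1 else {z}).card : ℕ) : ℝ)
              ≤ ∏ p : Pr n, (if p ∈ RTs z A Q then D else 1) := by
                refine prod_le_prod (fun p _ => by positivity) fun p _ => ?_
                split_ifs with hp
                · exact (mem_filter.mp hQ).2 p hp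
                · simp
            _ = D ^ (RTs z A Q).card := by
                rw [prod_ite, prod_const_one, mul_one, prod_const]
                congr 2
                ext p
                simp
        calc ((Op Q).card : ℝ) * D⁻¹ ^ (RTs z A Q).card
            ≤ D ^ (RTs z A Q).card * D⁻¹ ^ (RTs z A Q).card :=
              mul_le_mul_of_nonneg_right hc (by positivity)
          _ = 1 := by
              rw [← mul_pow, mul_inv_cancel₀ hD.ne', one_pow]
    _ = (Al'.card : ℝ) := by simp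
    _ ≤ ((Al G).card : ℝ) := by
        exact_mod_cast card_le_card (filter_subset _ _)

/-! ### many free pairs -/

/-- the vertices of `A` of small degree -/
def RTa (D : ℝ) (A : Finset (Fin n)) (P : PathSystem G) : Finset (Fin n) :=
  A.filter fun a => (dg (dirG P) a : ℝ) ≤ D

/-- the pairs available for switching -/
def RTm (D : ℝ) (A : Finset (Fin n)) (P : PathSystem G) : Finset (Pr n) :=
  univ.filter fun p => p.1.1 ∈ RTa D A P ∧ p.1.2 ∈ RTa D A P ∧
    ¬ (dirG P).Adj p.1.1 p.1.2 ∧ Free P p.1.1 p.1.2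

theorem RT_choose (n : ℕ) : NN n ≤ (n : ℝ) ^ 2 / 2 := by
  rw [NN, Nat.cast_choose_two]
  have : (0 : ℝ) ≤ n := by positivity
  nlinarith

theorem RT_card_a {ε lam : ℝ} (hε : 0 < ε) (hlam : 0 < lam) (hn : 0 < n) (A : Finset (Fin n))
    (P : PathSystem G) (hE : (nE (dirG P) : ℝ) ≤ 4 * NN n / lam) (hA : ε * n ≤ (A.card : ℝ)) :
    ε * n / 2 ≤ ((RTa (8 * n / (ε * lam)) A P).card : ℝ) := by
  set D : ℝ := 8 * n / (ε * lam) with hD
  have hn' : (0 : ℝ) < n := by exact_mod_cast hn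
  have hD0 : 0 < D := by positivity
  have h1 : ((A.filter fun a => ¬ (dg (dirG P) a : ℝ) ≤ D).card : ℝ) * D ≤ 4 * n ^ 2 / lam := by
    calc ((A.filter fun a => ¬ (dg (dirG P) a : ℝ) ≤ D).card : ℝ) * D
        = ∑ a ∈ A.filter (fun a => ¬ (dg (dirG P) a : ℝ) ≤ D), D := by
          rw [sum_const, nsmul_eq_mul]
      _ ≤ ∑ a ∈ A.filter (fun a => ¬ (dg (dirG P) a : ℝ) ≤ D), (dg (dirG P) a : ℝ) := by
          refine sum_le_sum fun a ha => ?_
          exact (not_le.mp (mem_filter.mp ha).2).le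
      _ ≤ ∑ a, (dg (dirG P) a : ℝ) :=
          sum_le_sum_of_subset_of_nonneg (subset_univ _) fun _ _ _ => by positivity
      _ ≤ 2 * (nE (dirG P) : ℝ) := by exact_mod_cast RT_sum_dg (dirG P)
      _ ≤ 2 * (4 * NN n / lam) := by linarith
      _ ≤ 4 * n ^ 2 / lam := by
          have h2 := RT_choose n
          rw [← mul_div_assoc]
          apply div_le_div_of_nonneg_right _ hlam.le
          linarith
  have h2 : ((A.filter fun a => ¬ (dg (dirG P) a : ℝ) ≤ D).card : ℝ) ≤ ε * n / 2 := by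
    have h3 : ε * n / 2 * D = 4 * n ^ 2 / lam := by
      rw [hD]
      field_simp
      ring
    rw [← h3] at h1
    exact le_of_mul_le_mul_right h1 hD0
  have h3 : (A.card : ℝ) = ((RTa D A P).card : ℝ) +
      ((A.filter fun a => ¬ (dg (dirG P) a : ℝ) ≤ D).card : ℝ) := by
    rw [RTa]
    exact_mod_cast (card_filter_add_card_filter_not (s := A)
      (fun a => (dg (dirG P) a : ℝ) ≤ D)).symm
  linarith

theorem RT_card_m (D : ℝ) (A : Finset (Fin n)) (P : PathSystem G) :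
    ((RTa D A P).card : ℝ) ^ 2 - ((RTa D A P).card : ℝ) ≤
      2 * ((RTm D A P).card + (nE (dirG P) : ℝ) + ((NonFree P).card : ℝ)) := by
  set A' := RTa D A P with hA'
  set Q : Finset (Pr n) := univ.filter fun p => p.1.1 ∈ A' ∧ p.1.2 ∈ A' with hQ
  have h1 : A'.offDiag.card ≤ 2 * Q.card := by
    refine RT_pairs _ _ ?_ ?_ ?_
    · intro q hq
      exact (mem_offDiag.mp hq).2.2
    · intro q hq h
      exact mem_filter.mpr ⟨mem_univ _, (mem_offDiag.mp hq).1, (mem_offDiag.mp hq).2.1⟩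
    · intro q hq h
      exact mem_filter.mpr ⟨mem_univ _, (mem_offDiag.mp hq).2.1, (mem_offDiag.mp hq).1⟩
  have h2 : Q.card ≤ (RTm D A P).card + nE (dirG P) + (NonFree P).card := by
    have hsub : Q ⊆ RTm D A P ∪ (univ.filter fun p : Pr n => (dirG P).Adj p.1.1 p.1.2) ∪
        NonFree P := by
      intro p hp
      obtain ⟨_, h3, h4⟩ := mem_filter.mp hp
      by_cases ha : (dirG P).Adj p.1.1 p.1.2
      · exact mem_union_left _ (mem_union_right _ (mem_filter.mpr ⟨mem_univ _, ha⟩))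
      by_cases hf : Free P p.1.1 p.1.2
      · exact mem_union_left _ (mem_union_left _ (mem_filter.mpr ⟨mem_univ _, h3, h4, ha, hf⟩))
      · exact mem_union_right _ (mem_filter.mpr ⟨mem_univ _, ha, hf⟩)
    calc Q.card ≤ _ := card_le_card hsub
      _ ≤ _ := card_union_le _ _
      _ ≤ _ := add_le_add (card_union_le _ _) le_rfl
  rw [offDiag_card] at h1
  have h4 : A'.card ≤ A'.card * A'.card := Nat.le_mul_self _
  have h5 : ((A'.card * A'.card - A'.card : ℕ) : ℝ) = (A'.card : ℝ) ^ 2 - A'.card := by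
    rw [Nat.cast_sub h4]
    push_cast
    ring
  have h6 : ((A'.card * A'.card - A'.card : ℕ) : ℝ) ≤
      2 * ((RTm D A P).card + (nE (dirG P) : ℝ) + ((NonFree P).card : ℝ)) := by
    exact_mod_cast h1.trans (Nat.mul_le_mul_left 2 h2)
  rw [h5] at h6
  exact h6

theorem RT_m_lower {ε C lam : ℝ} (hε : 0 < ε) (hε1 : ε ≤ 1) (hC : 0 < C) (hlam : 1 ≤ lam)
    (hn : lam ≤ n) (h1 : 30 / ε ≤ lam) (h2 : 240 / ε ^ 2 ≤ lam) (h3 : 60 * C / ε ^ 2 ≤ lam)
    (A : Finset (Fin n)) (P : PathSystem G) (hE : (nE (dirG P) : ℝ) ≤ 4 * NN n / lam)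
    (hN : ((NonFree P).card : ℝ) ≤ C * NN n / lam ^ 2) (hA : ε * n ≤ (A.card : ℝ)) :
    ε ^ 2 * n ^ 2 / 10 ≤ ((RTm (8 * n / (ε * lam)) A P).card : ℝ) := by
  have hlam0 : 0 < lam := by linarith
  have hn0 : (0 : ℝ) < n := by linarith
  have hn1 : 0 < n := by exact_mod_cast hn0
  have ha := RT_card_a hε hlam0 hn1 A P hE hA
  have hm := RT_card_m (8 * n / (ε * lam)) A P
  set a : ℝ := ((RTa (8 * n / (ε * lam)) A P).card : ℝ) with hadef
  set m : ℝ := ((RTm (8 * n / (ε * lam)) A P).card : ℝ) with hmdef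
  have hc := RT_choose n
  -- lower bound for `a ^ 2 - a`
  have e1 : 30 ≤ ε * n := by
    have : 30 ≤ ε * lam := by
      rw [div_le_iff₀ hε] at h1
      linarith
    nlinarith
  have e2 : ε ^ 2 * n ^ 2 / 4 - ε * n / 2 ≤ a ^ 2 - a := by
    have h5 : 0 ≤ (a - ε * n / 2) * (a + ε * n / 2 - 1) :=
      mul_nonneg (by linarith) (by nlinarith)
    nlinarith
  have e3 : ε * n / 2 ≤ ε ^ 2 * n ^ 2 / 60 := by nlinarith [mul_pos hε hn0]
  have e4 : (nE (dirG P) : ℝ) ≤ ε ^ 2 * n ^ 2 / 120 := by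
    have h5 : 240 ≤ ε ^ 2 * lam := by
      rw [div_le_iff₀ (by positivity)] at h2
      linarith
    calc (nE (dirG P) : ℝ) ≤ 4 * NN n / lam := hE
      _ ≤ 2 * n ^ 2 / lam := by
          apply div_le_div_of_nonneg_right _ hlam0.le
          linarith
      _ ≤ ε ^ 2 * n ^ 2 / 120 := by
          rw [div_le_div_iff₀ hlam0 (by norm_num)]
          nlinarith [sq_nonneg (n : ℝ)]
  have e5 : ((NonFree P).card : ℝ) ≤ ε ^ 2 * n ^ 2 / 120 := by
    have h5 : 60 * C ≤ ε ^ 2 * lam := by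
      rw [div_le_iff₀ (by positivity)] at h3
      linarith
    have h6 : 60 * C ≤ ε ^ 2 * lam ^ 2 := by
      have : ε ^ 2 * lam ≤ ε ^ 2 * lam ^ 2 := by
        apply mul_le_mul_of_nonneg_left _ (by positivity)
        nlinarith
      linarith
    calc ((NonFree P).card : ℝ) ≤ C * NN n / lam ^ 2 := hN
      _ ≤ C * (n ^ 2 / 2) / lam ^ 2 := by
          apply div_le_div_of_nonneg_right _ (by positivity)
          exact mul_le_mul_of_nonneg_left hc hC.le
      _ ≤ ε ^ 2 * n ^ 2 / 120 := by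
          rw [div_le_div_iff₀ (by positivity) (by norm_num)]
          nlinarith [sq_nonneg (n : ℝ), mul_le_mul_of_nonneg_right h6 (sq_nonneg (n : ℝ))]
  nlinarith [mul_pos hε hn0]

theorem RT_pow {ε lam : ℝ} (hε : 0 < ε) (hε1 : ε ≤ 1) (hlam : 1 ≤ lam) (hn : lam ≤ n)
    (h1 : 480 / ε ^ 3 ≤ lam) (k : ℕ) (hk : ε ^ 2 * n ^ 2 / 10 ≤ (k : ℝ)) :
    Real.exp (3 * n) ≤ (1 + (8 * n / (ε * lam))⁻¹) ^ k := by
  have hlam0 : 0 < lam := by linarith
  have hn0 : (0 : ℝ) < n := by linarith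
  set D : ℝ := 8 * n / (ε * lam) with hD
  have hD0 : 0 < D := by positivity
  have hD1 : 1 ≤ D := by
    rw [hD, le_div_iff₀ (by positivity)]
    nlinarith
  have hx : 0 < 1 + D⁻¹ := by positivity
  have e1 : 1 / (D + 1) ≤ Real.log (1 + D⁻¹) := by
    have h2 := Real.one_sub_inv_le_log_of_pos hx
    have h3 : 1 - (1 + D⁻¹)⁻¹ = 1 / (D + 1) := by
      field_simp
      ring
    rw [h3] at h2
    exact h2
  have e2 : 1 / (2 * D) ≤ 1 / (D + 1) := one_div_le_one_div_of_le (by linarith) (by linarith)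
  have e3 : 3 * (n : ℝ) ≤ k * Real.log (1 + D⁻¹) := by
    have h4 : 480 ≤ ε ^ 3 * lam := by
      rw [div_le_iff₀ (by positivity)] at h1
      linarith
    have h5 : ε ^ 2 * n ^ 2 / 10 * (1 / (2 * D)) = ε ^ 3 * lam * n / 160 := by
      rw [hD]
      field_simp
      ring
    have h6 : 3 * (n : ℝ) ≤ ε ^ 3 * lam * n / 160 := by nlinarith
    calc 3 * (n : ℝ) ≤ ε ^ 2 * n ^ 2 / 10 * (1 / (2 * D)) := by rw [h5]; exact h6
      _ ≤ k * Real.log (1 + D⁻¹) :=
          mul_le_mul hk (e2.trans e1) (by positivity) (by positivity)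
  calc Real.exp (3 * n) ≤ Real.exp (k * Real.log (1 + D⁻¹)) := Real.exp_le_exp.mpr e3
    _ = (1 + D⁻¹) ^ k := by
        rw [mul_comm, Real.exp_mul, Real.exp_log hx, Real.rpow_natCast]

theorem RT_n_ge {h : ℕ} {lam δ : ℝ} (hp : Par n h lam δ) : lam ≤ n := by
  have h1 := hp.big
  have h2 := hp.eq
  have h3 := hp.close
  have h4 : (0 : ℝ) < h := by
    rcases Nat.eq_zero_or_pos h with h0 | h0
    · rw [h0] at h2
      simp at h2
      linarith
    · exact_mod_cast h0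
  have h5 : Real.exp lam = h / 4 := by
    rw [h2, Real.exp_log (by positivity)]
  have h6 := Real.add_one_le_exp lam
  have h7 : lam - 2 ≤ n / h := by
    have := (abs_le.mp h3).1
    linarith
  rw [le_div_iff₀ h4] at h7
  nlinarith

theorem RT_union (n : ℕ) : (n : ℝ) * 2 ^ n * Real.exp (-(3 * n)) ≤ (1 / 2) ^ n := by
  have h1 : (8 : ℝ) ^ n ≤ Real.exp (3 * n) := by
    have h2 : (8 : ℝ) ≤ Real.exp 3 := by
      have h3 : Real.exp 3 = Real.exp 1 ^ 3 := by
        rw [← Real.exp_nat_mul]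
        norm_num
      rw [h3]
      have h4 : (2 : ℝ) ≤ Real.exp 1 := by linarith [Real.add_one_le_exp (1 : ℝ)]
      nlinarith [pow_le_pow_left₀ (by norm_num : (0 : ℝ) ≤ 2) h4 3]
    calc (8 : ℝ) ^ n ≤ (Real.exp 3) ^ n := pow_le_pow_left₀ (by norm_num) h2 n
      _ = Real.exp (3 * n) := by
          rw [← Real.exp_nat_mul]
          ring_nf
  have h2 : (n : ℝ) ≤ 2 ^ n := by exact_mod_cast Nat.lt_two_pow_self.le
  rw [Real.exp_neg, ← div_eq_mul_inv, div_le_iff₀ (Real.exp_pos _)]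
  calc (n : ℝ) * 2 ^ n ≤ 2 ^ n * 2 ^ n := mul_le_mul_of_nonneg_right h2 (by positivity)
    _ = (1 / 2) ^ n * 8 ^ n := by
        rw [← mul_pow, ← mul_pow]
        norm_num
    _ ≤ (1 / 2) ^ n * Real.exp (3 * n) := mul_le_mul_of_nonneg_left h1 (by positivity)

theorem RR_typical_of (hsw : ∀ (n : ℕ) (G : SimpleGraph (Fin n)), SwitchStar G)
    (ε : ℝ) (hε : 0 < ε) (hε1 : ε ≤ 1) (C : ℝ) (hC : 0 < C) :
    ∃ Λ0 : ℝ, ∀ (n h : ℕ) (lam δ : ℝ), Par n h lam δ → Λ0 ≤ lam →
    ∀ G : SimpleGraph (Fin n),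
      (((Al G).filter fun P => (nE (dirG P) : ℝ) ≤ 4 * NN n / lam ∧
        ((NonFree P).card : ℝ) ≤ C * NN n / lam ^ 2 ∧ ¬ RR ε P).card : ℝ) ≤
        (1 / 2) ^ n * ((Al G).card : ℝ) := by
  refine ⟨30 / ε + 240 / ε ^ 2 + 60 * C / ε ^ 2 + 480 / ε ^ 3, ?_⟩
  intro n h lam δ hp hL G
  have p1 : 0 < 30 / ε := by positivity
  have p2 : 0 < 240 / ε ^ 2 := by positivity
  have p3 : 0 < 60 * C / ε ^ 2 := by positivity
  have p4 : 0 < 480 / ε ^ 3 := by positivity
  have hlam : 1 ≤ lam := by linarith [hp.big]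
  have hlam0 : 0 < lam := by linarith
  have hn := RT_n_ge hp
  have hn0 : (0 : ℝ) < n := by linarith
  set D : ℝ := 8 * n / (ε * lam) with hD
  have hD0 : 0 < D := by positivity
  set Bad : Fin n → Finset (Fin n) → Finset (PathSystem G) := fun z A =>
    (Al G).filter fun P => (nE (dirG P) : ℝ) ≤ 4 * NN n / lam ∧
      ((NonFree P).card : ℝ) ≤ C * NN n / lam ^ 2 ∧ ε * n ≤ (A.card : ℝ) ∧
      (∀ a ∈ A, (dirG P).Adj z a) ∧
      ∀ a ∈ A, ∀ b ∈ A, a ≠ b → ¬ (P.nxt a b = z ∧ P.nxt b a = z) with hBad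
  have hbad : ∀ z A, ((Bad z A).card : ℝ) ≤ Real.exp (-(3 * n)) * ((Al G).card : ℝ) := by
    intro z A
    have h1 := RT_encode (hsw n G) z A D hD0 (Bad z A) (fun P => RTm D A P) (by
      intro P hP
      obtain ⟨h1, _, _, _, h2, h3⟩ := mem_filter.mp hP
      exact ⟨(mem_filter.mp h1).2, h2, h3⟩) (by
      intro P hP p hp
      obtain ⟨_, h1, h2, h3, h4⟩ := mem_filter.mp hp
      obtain ⟨h5, h6⟩ := mem_filter.mp h1
      exact ⟨h5, (mem_filter.mp h2).1, h3, h4, h6⟩)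
    have h2 : ((Bad z A).card : ℝ) * Real.exp (3 * n) ≤ ((Al G).card : ℝ) := by
      calc ((Bad z A).card : ℝ) * Real.exp (3 * n)
          = ∑ P ∈ Bad z A, Real.exp (3 * n) := by rw [sum_const, nsmul_eq_mul]
        _ ≤ ∑ P ∈ Bad z A, (1 + D⁻¹) ^ (RTm D A P).card := by
            refine sum_le_sum fun P hP => ?_
            obtain ⟨_, hE, hN, hA, _, _⟩ := mem_filter.mp hP
            refine RT_pow hε hε1 hlam hn (by linarith) _ ?_
            exact RT_m_lower hε hε1 hC hlam hn (by linarith) (by linarith) (by linarith) A P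
              hE hN hA
        _ ≤ _ := h1
    rw [Real.exp_neg, ← div_eq_inv_mul, le_div_iff₀ (Real.exp_pos _)]
    exact h2
  have hsub : ((Al G).filter fun P => (nE (dirG P) : ℝ) ≤ 4 * NN n / lam ∧
        ((NonFree P).card : ℝ) ≤ C * NN n / lam ^ 2 ∧ ¬ RR ε P) ⊆
      (univ : Finset (Fin n)).biUnion fun z => (univ : Finset (Finset (Fin n))).biUnion fun A =>
        Bad z A := by
    intro P hP
    obtain ⟨h1, h2, h3, h4⟩ := mem_filter.mp hP
    unfold RR at h4
    push Not at h4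
    obtain ⟨z, A, hA1, hA2, hA3⟩ := h4
    refine mem_biUnion.mpr ⟨z, mem_univ _, mem_biUnion.mpr ⟨A, mem_univ _, ?_⟩⟩
    refine mem_filter.mpr ⟨h1, h2, h3, hA2, hA1, ?_⟩
    intro a ha b hb hab hc
    exact hA3 a ha b hb hab hc.1 hc.2
  calc (((Al G).filter fun P => (nE (dirG P) : ℝ) ≤ 4 * NN n / lam ∧
        ((NonFree P).card : ℝ) ≤ C * NN n / lam ^ 2 ∧ ¬ RR ε P).card : ℝ)
      ≤ (((univ : Finset (Fin n)).biUnion fun z =>
          (univ : Finset (Finset (Fin n))).biUnion fun A => Bad z A).card : ℝ) := by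
        exact_mod_cast card_le_card hsub
    _ ≤ ∑ z : Fin n, ∑ A : Finset (Fin n), ((Bad z A).card : ℝ) := by
        have h1 : ((univ : Finset (Fin n)).biUnion fun z =>
          (univ : Finset (Finset (Fin n))).biUnion fun A => Bad z A).card ≤
          ∑ z : Fin n, ∑ A : Finset (Fin n), (Bad z A).card :=
          card_biUnion_le.trans (sum_le_sum fun z _ => card_biUnion_le)
        exact_mod_cast h1
    _ ≤ ∑ z : Fin n, ∑ A : Finset (Fin n), Real.exp (-(3 * n)) * ((Al G).card : ℝ) :=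
        sum_le_sum fun z _ => sum_le_sum fun A _ => hbad z A
    _ = (n : ℝ) * 2 ^ n * Real.exp (-(3 * n)) * ((Al G).card : ℝ) := by
        rw [sum_const, sum_const, card_univ, card_univ, Fintype.card_fin, Fintype.card_finset,
          Fintype.card_fin]
        simp only [nsmul_eq_mul]
        push_cast
        ring
    _ ≤ (1 / 2) ^ n * ((Al G).card : ℝ) :=
        mul_le_mul_of_nonneg_right (RT_union n) (by positivity)

end

end PS
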