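import Pool.Agent.Helper64.PS.SW
import Pool.Agent.Helper73.PS.RT0

/-!
# MP_8013d7_co, module RT: property `RR` is typical
-/

set_option autoImplicit false

namespace PS

open SimpleGraph Finset Pool.Agent.Helper37.PathSys
open Pool.Agent.Helper37.PathSys.PathSystem

open scoped Classical

noncomputable section

theorem RR_typical (ε : ℝ) (hε : 0 < ε) (hε1 : ε ≤ 1) (C : ℝ) (hC : 0 < C) :
    ∃ Λ0 : ℝ, ∀ (n h : ℕ) (lam δ : ℝ), Par n h lam δ → Λ0 ≤ lam →
    ∀ G : SimpleGraph (Fin n),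
      (((Al G).filter fun P => (nE (dirG P) : ℝ) ≤ 4 * NN n / lam ∧
        ((NonFree P).card : ℝ) ≤ C * NN n / lam ^ 2 ∧ ¬ RR ε P).card : ℝ) ≤
        (1 / 2) ^ n * ((Al G).card : ℝ) :=
  RR_typical_of (fun _ _ _ hP z S hS => switch_star hP z S hS) ε hε hε1 C hC

end

end PS
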